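import Pool.Agent.V7H41.CD.Spec
import Pool.Agent.V7H67.CC.TFP

set_option autoImplicit false

/-! FAM -/

open Finset

namespace Pool.Agent.V7H24.CD

open Pool.Agent.V7H41.CC Pool.Agent.V7H96.CC Pool.Agent.V7H67.CC Pool.Agent.V7H41.CD

/-- the classes of size at least two -/
def fm {n : ℕ} (P : Finpartition (univ : Finset (Fin n))) : Finset (Finset (Fin n)) :=
  P.parts.filter (fun A => 2 ≤ A.card)

lemma fm_sub {n : ℕ} {P P' : Finpartition (univ : Finset (Fin n))} (h : fm P = fm P') :
    P.parts ⊆ P'.parts := by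
  intro A hA
  by_cases h2 : 2 ≤ A.card
  · have : A ∈ fm P := mem_filter.2 ⟨hA, h2⟩
    rw [h] at this
    exact (mem_filter.1 this).1
  · have hne : A.Nonempty := P.nonempty_of_mem_parts hA
    have h1 : A.card = 1 := by
      have := hne.card_pos
      omega
    obtain ⟨x, rfl⟩ := card_eq_one.1 h1
    obtain ⟨B, hB, hxB⟩ := P'.exists_mem (mem_univ x)
    by_cases hB2 : 2 ≤ B.card
    · have : B ∈ fm P' := mem_filter.2 ⟨hB, hB2⟩
      rw [← h] at this
      have hBP := (mem_filter.1 this).1
      have : B = {x} := by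
        by_contra hne
        exact Finset.disjoint_left.1 (P.disjoint hBP hA hne) hxB (mem_singleton_self x)
      subst this
      simp at hB2
    · have : B.card = 1 := by
        have := (P'.nonempty_of_mem_parts hB).card_pos
        omega
      obtain ⟨y, rfl⟩ := card_eq_one.1 this
      rw [mem_singleton] at hxB
      subst hxB
      exact hB

lemma fm_inj {n : ℕ} {P P' : Finpartition (univ : Finset (Fin n))} (h : fm P = fm P') :
    P = P' := by
  ext1
  exact Subset.antisymm (fm_sub h) (fm_sub h.symm)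

lemma sum_fm {n : ℕ} (P : Finpartition (univ : Finset (Fin n))) :
    ∑ A ∈ fm P, (A.card - 1) + P.parts.card = n := by
  have h1 : ∑ A ∈ fm P, (A.card - 1) = ∑ A ∈ P.parts, (A.card - 1) := by
    unfold fm
    rw [sum_filter_of_ne]
    intro A _ h
    omega
  have h2 : ∑ A ∈ P.parts, A.card = n := by
    rw [P.sum_card_parts]; simp
  have h3 : ∑ A ∈ P.parts, A.card = ∑ A ∈ P.parts, ((A.card - 1) + 1) :=
    sum_congr rfl (fun A hA => by
      have := (P.nonempty_of_mem_parts hA).card_pos
      omega)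
  rw [h1]
  rw [sum_add_distrib] at h3
  simp at h3
  omega

lemma surj {n : ℕ} (T F : PhyloTree n) {Q : Finset (Finset (Fin n))}
    (hQ2 : ∀ A ∈ Q, 2 ≤ A.card)
    (hQs : ∀ A ∈ Q, ∀ B ∈ Q, A ≠ B → Disjoint (T.span A) (T.span B) ∧
      Disjoint (F.span A) (F.span B)) :
    ∃ P : Finpartition (univ : Finset (Fin n)), T.Convex P ∧ F.Convex P ∧ fm P = Q := by
  have hdis : ∀ A ∈ Q, ∀ B ∈ Q, A ≠ B → Disjoint A B :=
    fun A hA B hB hAB => disjoint_of_span (hQs A hA B hB hAB).1
  set U : Finset (Finset (Fin n)) :=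
    ((univ : Finset (Fin n)) \ Q.biUnion id).image (fun x => ({x} : Finset (Fin n))) with hU
  have hU1 : ∀ A ∈ U, ∃ x, x ∉ Q.biUnion id ∧ A = {x} := by
    intro A hA
    rw [hU, mem_image] at hA
    obtain ⟨x, hx, rfl⟩ := hA
    exact ⟨x, (mem_sdiff.1 hx).2, rfl⟩
  let P : Finpartition (univ : Finset (Fin n)) :=
    Finpartition.ofExistsUnique (Q ∪ U) (fun _ _ => subset_univ _)
      (by
        intro a _
        by_cases ha : a ∈ Q.biUnion id
        · obtain ⟨A, hA, haA⟩ := mem_biUnion.1 ha
          refine ⟨A, ⟨mem_union_left _ hA, haA⟩, ?_⟩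
          rintro B ⟨hB, haB⟩
          rcases mem_union.1 hB with hB | hB
          · by_contra hne
            exact (Finset.disjoint_left.1 (hdis B hB A hA hne)) haB haA
          · obtain ⟨x, hx, rfl⟩ := hU1 B hB
            rw [mem_singleton] at haB
            subst haB
            exact absurd ha hx
        · refine ⟨{a}, ⟨mem_union_right _ ?_, mem_singleton_self a⟩, ?_⟩
          · rw [hU, mem_image]
            exact ⟨a, mem_sdiff.2 ⟨mem_univ _, ha⟩, rfl⟩
          · rintro B ⟨hB, haB⟩
            rcases mem_union.1 hB with hB | hB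
            · exact absurd (mem_biUnion.2 ⟨B, hB, haB⟩) ha
            · obtain ⟨x, hx, rfl⟩ := hU1 B hB
              rw [mem_singleton] at haB
              rw [haB])
      (by
        intro h
        rcases mem_union.1 h with h | h
        · have := hQ2 _ h
          simp at this
        · obtain ⟨x, -, hx⟩ := hU1 _ h
          exact absurd hx.symm (by simp))
  have hP : P.parts = Q ∪ U := rfl
  have hconv : ∀ R : PhyloTree n,
      (∀ A ∈ Q, ∀ B ∈ Q, A ≠ B → Disjoint (R.span A) (R.span B)) → R.Convex P := by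
    intro R hR A hA B hB hAB
    rcases mem_union.1 (hP ▸ hA) with hA' | hA' <;> rcases mem_union.1 (hP ▸ hB) with hB' | hB'
    · exact hR A hA' B hB' hAB
    · obtain ⟨x, hx, rfl⟩ := hU1 B hB'
      rw [span_single, Set.disjoint_singleton_right]
      exact leaf_notMem R _ x (fun h => hx (mem_biUnion.2 ⟨A, hA', h⟩))
    · obtain ⟨x, hx, rfl⟩ := hU1 A hA'
      rw [span_single, Set.disjoint_singleton_left]
      exact leaf_notMem R _ x (fun h => hx (mem_biUnion.2 ⟨B, hB', h⟩))
    · obtain ⟨x, hx, rfl⟩ := hU1 A hA'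
      obtain ⟨y, hy, rfl⟩ := hU1 B hB'
      rw [span_single, span_single, Set.disjoint_singleton]
      intro h
      exact hAB (by rw [R.leaf_inj h])
  refine ⟨P, hconv T fun A hA B hB h => (hQs A hA B hB h).1,
    hconv F fun A hA B hB h => (hQs A hA B hB h).2, ?_⟩
  unfold fm
  rw [hP]
  ext A
  rw [mem_filter, mem_union]
  constructor
  · rintro ⟨h | h, h2⟩
    · exact h
    · obtain ⟨x, -, rfl⟩ := hU1 A h
      simp at h2
  · intro h
    exact ⟨Or.inl h, hQ2 A h⟩

theorem t_FAM : S_FAM := by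
  intro n m T F hmn
  have key : {Q | IsFam T F m Q} = fm '' {P : Finpartition (univ : Finset (Fin n)) |
      T.Convex P ∧ F.Convex P ∧ P.parts.card = n - m} := by
    ext Q
    constructor
    · rintro ⟨h1, h2, h3⟩
      obtain ⟨P, hT, hF, hP⟩ := surj T F h1 h3
      refine ⟨P, ⟨hT, hF, ?_⟩, hP⟩
      have := sum_fm P
      rw [hP, h2] at this
      omega
    · rintro ⟨P, ⟨hT, hF, hc⟩, rfl⟩
      refine ⟨fun A hA => (mem_filter.1 hA).2, ?_, fun A hA B hB hAB => ⟨?_, ?_⟩⟩
      · have := sum_fm P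
        omega
      · exact hT A (mem_filter.1 hA).1 B (mem_filter.1 hB).1 hAB
      · exact hF A (mem_filter.1 hA).1 B (mem_filter.1 hB).1 hAB
  rw [key, Set.ncard_image_of_injOn (fun P _ P' _ h => fm_inj h)]
  rfl

end Pool.Agent.V7H24.CD
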